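import Pool.Agent.K3h88.Loz.Stm

/-!
# The chain lemma with two blocks and the sum over one line (bricks C2 and C3)
-/

set_option autoImplicit false

namespace Pool.Agent.K3h56.Loz

open Finset Pool.Agent.K3h88.Loz

theorem cnt_union {A B : Finset ℤ} (h : Disjoint A B) (t : ℤ) :
    cnt (A ∪ B) t = cnt A t + cnt B t := by
  unfold cnt
  rw [filter_union, card_union_of_disjoint (disjoint_filter_filter h)]

theorem cnt_Ico (a b t : ℤ) : cnt (Ico a b) t = (min b t - a).toNat := by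
  unfold cnt
  rw [← Int.card_Ico]
  congr 1
  ext z
  simp only [mem_filter, mem_Ico, lt_min_iff]
  tauto

theorem cnt_lo {X : Finset ℤ} {lo hi t : ℤ} (h : X ⊆ Ico lo hi) (ht : t ≤ lo) : cnt X t = 0 := by
  unfold cnt
  rw [card_eq_zero, filter_eq_empty_iff]
  intro z hz
  have := mem_Ico.1 (h hz)
  omega

theorem cnt_hi {X : Finset ℤ} {lo hi t : ℤ} (h : X ⊆ Ico lo hi) (ht : hi ≤ t) :
    cnt X t = X.card := by
  unfold cnt
  rw [filter_true_of_mem]
  intro z hz
  have := mem_Ico.1 (h hz)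
  omega

theorem cnt_succ_mem {X : Finset ℤ} {a : ℤ} (h : a ∈ X) : cnt X (a + 1) = cnt X a + 1 := by
  unfold cnt
  have : X.filter (fun z => z < a + 1) = insert a (X.filter (fun z => z < a)) := by
    ext z
    simp only [mem_filter, mem_insert]
    constructor
    · rintro ⟨h1, h2⟩
      rcases eq_or_ne z a with h3 | h3
      · exact Or.inl h3
      · exact Or.inr ⟨h1, by omega⟩
    · rintro (h1 | ⟨h1, h2⟩)
      · subst h1
        exact ⟨h, by omega⟩
      · exact ⟨h1, by omega⟩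
  rw [this, card_insert_of_notMem (by simp)]

theorem cnt_succ_not {X : Finset ℤ} {a : ℤ} (h : a ∉ X) : cnt X (a + 1) = cnt X a := by
  unfold cnt
  congr 1
  ext z
  simp only [mem_filter]
  constructor
  · rintro ⟨h1, h2⟩
    have : z ≠ a := fun e => h (e ▸ h1)
    exact ⟨h1, by omega⟩
  · rintro ⟨h1, h2⟩
    exact ⟨h1, by omega⟩

theorem cnt_mono (X : Finset ℤ) {s t : ℤ} (h : s ≤ t) : cnt X s ≤ cnt X t := by
  unfold cnt
  apply card_le_card
  intro z hz
  rw [mem_filter] at hz ⊢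
  exact ⟨hz.1, by omega⟩

/-- translation -/
def sh (c : ℤ) (X : Finset ℤ) : Finset ℤ := X.image (fun a => a + c)

theorem mem_sh {c : ℤ} {X : Finset ℤ} {a : ℤ} : a ∈ sh c X ↔ a - c ∈ X := by
  unfold sh
  rw [mem_image]
  constructor
  · rintro ⟨b, hb, rfl⟩
    simpa using hb
  · intro h
    exact ⟨a - c, h, by ring⟩

theorem sh_card (c : ℤ) (X : Finset ℤ) : (sh c X).card = X.card :=
  card_image_of_injective _ (fun a b h => by simpa using h)

theorem cnt_sh (c : ℤ) (X : Finset ℤ) (t : ℤ) : cnt (sh c X) t = cnt X (t - c) := by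
  have : (sh c X).filter (fun z => z < t) = sh c (X.filter (fun z => z < t - c)) := by
    ext z
    simp only [mem_filter, mem_sh]
    constructor
    · rintro ⟨h1, h2⟩
      exact ⟨h1, by omega⟩
    · rintro ⟨h1, h2⟩
      exact ⟨h1, by omega⟩
  unfold cnt
  rw [this, sh_card]

theorem vd_sh (c : ℤ) (X : Finset ℤ) : vd (sh c X) = vd X := by
  unfold vd
  symm
  apply prod_bij' (fun p _ => (p.1 + c, p.2 + c)) (fun p _ => (p.1 - c, p.2 - c))
  · rintro ⟨a, b⟩ h
    simp only [mem_filter, mem_product, mem_sh] at h ⊢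
    refine ⟨⟨by simpa using h.1.1, by simpa using h.1.2⟩, by omega⟩
  · rintro ⟨a, b⟩ h
    simp only [mem_filter, mem_product, mem_sh] at h ⊢
    exact ⟨h.1, by omega⟩
  · rintro ⟨a, b⟩ _
    simp
  · rintro ⟨a, b⟩ _
    simp
  · rintro ⟨a, b⟩ _
    push_cast
    ring

theorem tt_sh (c : ℤ) (X : Finset ℤ) : tt (sh c X) = tt X := by
  unfold tt
  rw [vd_sh, sh_card]

theorem tt_empty : tt ∅ = 1 := by
  unfold tt vd sf
  simp

/-- the middle part of `Z`, translated -/
def mid (lo hi : ℤ) (Z : Finset ℤ) : Finset ℤ := sh 1 (Z.filter (fun z => lo - 1 ≤ z ∧ z < hi))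

theorem mem_mid {lo hi : ℤ} {Z : Finset ℤ} {a : ℤ} :
    a ∈ mid lo hi Z ↔ a - 1 ∈ Z ∧ lo ≤ a ∧ a ≤ hi := by
  unfold mid
  rw [mem_sh, mem_filter]
  constructor
  · rintro ⟨h1, h2, h3⟩
    exact ⟨h1, by omega, by omega⟩
  · rintro ⟨h1, h2, h3⟩
    exact ⟨h1, by omega, by omega⟩

/-- `S` with two blocks, translated back -/
noncomputable def ext (b b' : ℕ) (lo hi : ℤ) (S : Finset ℤ) : Finset ℤ :=
  sh (-1) (Ico (lo - b) lo ∪ S ∪ Ico (hi + 1) (hi + 1 + b'))

theorem mem_ext {b b' : ℕ} {lo hi : ℤ} {S : Finset ℤ} {a : ℤ} :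
    a ∈ ext b b' lo hi S ↔ (lo - b - 1 ≤ a ∧ a < lo - 1) ∨ a + 1 ∈ S ∨ (hi ≤ a ∧ a < hi + b') := by
  unfold ext
  rw [mem_sh, mem_union, mem_union, mem_Ico, mem_Ico]
  rw [show a - -1 = a + 1 by ring]
  constructor
  · rintro ((h | h) | h)
    · left; omega
    · right; left; exact h
    · right; right; omega
  · rintro (h | h | h)
    · left; left; omega
    · left; right; exact h
    · right; omega

theorem cnt_ext {b b' : ℕ} {lo hi : ℤ} {S : Finset ℤ} (hl : lo ≤ hi) (hS : S ⊆ Ico lo (hi + 1))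
    (t : ℤ) :
    cnt (ext b b' lo hi S) t = (min lo (t + 1) - (lo - b)).toNat + cnt S (t + 1) +
      (min (hi + 1 + b') (t + 1) - (hi + 1)).toNat := by
  unfold ext
  rw [cnt_sh, show t - -1 = t + 1 by ring, cnt_union, cnt_union, cnt_Ico, cnt_Ico]
  · rw [disjoint_left]
    intro z h1 h2
    have := mem_Ico.1 (hS h2)
    rw [mem_Ico] at h1
    omega
  · rw [disjoint_left]
    intro z h1 h2
    rw [mem_Ico] at h2
    rw [mem_union] at h1
    rcases h1 with h1 | h1
    · rw [mem_Ico] at h1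
      omega
    · have := mem_Ico.1 (hS h1)
      omega

theorem card_ext {b b' : ℕ} {lo hi : ℤ} {S : Finset ℤ} (hl : lo ≤ hi) (hS : S ⊆ Ico lo (hi + 1)) :
    (ext b b' lo hi S).card = b + S.card + b' := by
  have h1 : ext b b' lo hi S ⊆ Ico (lo - b - 1) (hi + b') := by
    intro z hz
    rw [mem_ext] at hz
    rw [mem_Ico]
    rcases hz with h | h | h
    · omega
    · have := mem_Ico.1 (hS h)
      omega
    · omega
  have h2 := cnt_hi h1 (t := hi + b') le_rfl
  have h3 := cnt_hi hS (t := hi + b' + 1) (by omega)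
  rw [cnt_ext hl hS, h3] at h2
  omega

/-- the set with the longer blocks -/
noncomputable def Z0 (b b' : ℕ) (lo hi : ℤ) (X : Finset ℤ) : Finset ℤ :=
  Ico (lo - (b + 1)) lo ∪ X ∪ Ico hi (hi + (b' + 1))

theorem cnt_Z0 {b b' : ℕ} {lo hi : ℤ} {X : Finset ℤ} (hl : lo ≤ hi) (hX : X ⊆ Ico lo hi) (t : ℤ) :
    cnt (Z0 b b' lo hi X) t = (min lo t - (lo - (b + 1))).toNat + cnt X t +
      (min (hi + (b' + 1)) t - hi).toNat := by
  unfold Z0
  rw [cnt_union, cnt_union, cnt_Ico, cnt_Ico]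
  · rw [disjoint_left]
    intro z h1 h2
    have := mem_Ico.1 (hX h2)
    rw [mem_Ico] at h1
    omega
  · rw [disjoint_left]
    intro z h1 h2
    rw [mem_Ico] at h2
    rw [mem_union] at h1
    rcases h1 with h1 | h1
    · rw [mem_Ico] at h1
      omega
    · have := mem_Ico.1 (hX h1)
      omega

theorem Z0_sub {b b' : ℕ} {lo hi : ℤ} {X : Finset ℤ} (hl : lo ≤ hi) (hX : X ⊆ Ico lo hi) :
    Z0 b b' lo hi X ⊆ Ico (lo - (b + 1)) (hi + (b' + 1)) := by
  intro z hz
  unfold Z0 at hz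
  rw [mem_union, mem_union, mem_Ico, mem_Ico] at hz
  rw [mem_Ico]
  rcases hz with (h | h) | h
  · omega
  · have := mem_Ico.1 (hX h)
    omega
  · omega

theorem card_Z0 {b b' : ℕ} {lo hi : ℤ} {X : Finset ℤ} (hl : lo ≤ hi) (hX : X ⊆ Ico lo hi) :
    (Z0 b b' lo hi X).card = b + 1 + X.card + (b' + 1) := by
  have h2 := cnt_hi (Z0_sub (b := b) (b' := b') hl hX) (t := hi + (b' + 1)) le_rfl
  have h3 := cnt_hi hX (t := hi + (b' + 1)) (by omega)
  rw [cnt_Z0 hl hX, h3] at h2
  omega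

theorem il_iff {b b' : ℕ} {lo hi : ℤ} {X S : Finset ℤ} (hl : lo ≤ hi) (hX : X ⊆ Ico lo hi)
    (hS : S ⊆ Ico lo (hi + 1)) : IL (ext b b' lo hi S) (Z0 b b' lo hi X) ↔ IL X S := by
  unfold IL
  rw [card_ext hl hS, card_Z0 hl hX]
  constructor
  · rintro ⟨h1, h2⟩
    refine ⟨by omega, fun t => ?_⟩
    have e1 := h2 t
    have e2 := h2 (t - 1)
    rw [cnt_ext hl hS, cnt_Z0 hl hX, cnt_Z0 hl hX] at e1 e2
    rw [show t - 1 + 1 = t by ring] at e2
    rcases lt_or_ge t lo with ht | ht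
    · have q1 := cnt_lo hX (t := t) (by omega)
      have q2 := cnt_lo hS (t := t + 1) (by omega)
      have q3 := cnt_lo hS (t := t) (by omega)
      omega
    · rcases lt_or_ge hi t with ht' | ht'
      · have q1 := cnt_hi hX (t := t) (by omega)
        have q2 := cnt_hi hS (t := t + 1) (by omega)
        have q3 := cnt_hi hS (t := t) (by omega)
        omega
      · constructor
        · have := e2.2
          omega
        · have := e1.1
          omega
  · rintro ⟨h1, h2⟩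
    refine ⟨by omega, fun t => ?_⟩
    have e1 := h2 t
    have e2 := h2 (t + 1)
    rw [cnt_ext hl hS, cnt_Z0 hl hX, cnt_Z0 hl hX]
    rcases lt_or_ge t lo with ht | ht
    · have q1 := cnt_lo hX (t := t) (by omega)
      have q2 := cnt_lo hS (t := t + 1) (by omega)
      rcases lt_or_ge (t + 1) lo with ht2 | ht2
      · have q3 := cnt_lo hX (t := t + 1) (by omega)
        omega
      · have q3 := cnt_lo hX (t := t + 1) (by omega)
        omega
    · rcases lt_or_ge t hi with ht' | ht'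
      · omega
      · have q1 := cnt_hi hX (t := t) (by omega)
        have q2 := cnt_hi hS (t := t + 1) (by omega)
        have q3 := cnt_hi hX (t := t + 1) (by omega)
        omega

theorem il_ext {b b' : ℕ} {lo hi : ℤ} {X Z : Finset ℤ} (hl : lo ≤ hi) (hX : X ⊆ Ico lo hi)
    (hZ : Z ⊆ Ico (lo - (b + 1)) (hi + b')) (h : IL Z (Z0 b b' lo hi X)) :
    ext b b' lo hi (mid lo hi Z) = Z := by
  obtain ⟨h1, h2⟩ := h
  rw [card_Z0 hl hX] at h1
  have eq1 : ∀ t, lo - (b + 1) ≤ t → t ≤ lo - 1 → cnt Z t = (t - (lo - (b + 1))).toNat := by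
    intro t ht ht'
    have e1 := h2 t
    rw [cnt_Z0 hl hX, cnt_Z0 hl hX] at e1
    have q1 := cnt_lo hX (t := t) (by omega)
    have q2 := cnt_lo hX (t := t + 1) (by omega)
    omega
  have eq2 : ∀ t, hi ≤ t → t ≤ hi + b' → (cnt Z t : ℤ) = b + 1 + X.card + t - hi := by
    intro t ht ht'
    have e1 := h2 t
    rw [cnt_Z0 hl hX, cnt_Z0 hl hX] at e1
    have q1 := cnt_hi hX (t := t) (by omega)
    have q2 := cnt_hi hX (t := t + 1) (by omega)
    omega
  ext a
  rw [mem_ext, mem_mid]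
  constructor
  · rintro (h | h | h)
    · by_contra hc
      have := cnt_succ_not hc
      rw [eq1 a (by omega) (by omega), eq1 (a + 1) (by omega) (by omega)] at this
      omega
    · have := h.1
      rwa [show a + 1 - 1 = a by ring] at this
    · by_contra hc
      have := cnt_succ_not hc
      have q1 := eq2 a (by omega) (by omega)
      have q2 := eq2 (a + 1) (by omega) (by omega)
      omega
  · intro ha
    have := mem_Ico.1 (hZ ha)
    rw [show a + 1 - 1 = a by ring]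
    by_cases q1 : a < lo - 1
    · left; omega
    · by_cases q2 : a < hi
      · right; left; exact ⟨ha, by omega, by omega⟩
      · right; right; omega

theorem mid_ext {b b' : ℕ} {lo hi : ℤ} {S : Finset ℤ} (hS : S ⊆ Ico lo (hi + 1)) :
    mid lo hi (ext b b' lo hi S) = S := by
  ext a
  rw [mem_mid, mem_ext, show a - 1 + 1 = a by ring]
  constructor
  · rintro ⟨h1 | h1 | h1, h2, h3⟩
    · omega
    · exact h1
    · omega
  · intro h
    have := mem_Ico.1 (hS h)
    exact ⟨Or.inr (Or.inl h), by omega, by omega⟩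

theorem mid_sub (lo hi : ℤ) (Z : Finset ℤ) : mid lo hi Z ⊆ Ico lo (hi + 1) := by
  intro a ha
  rw [mem_mid] at ha
  rw [mem_Ico]
  omega

theorem c2 (h : StmC1) : StmC2 := by
  classical
  intro b b' lo hi X hX hl
  have h1 := h (lo - (b + 1)) (hi + (b' + 1)) (Z0 b b' lo hi X) (Z0_sub hl hX)
    ⟨lo - 1, by unfold Z0; rw [mem_union, mem_union, mem_Ico]; left; left; omega⟩
  have e0 : Ico (lo - ((b : ℤ) + 1)) lo ∪ X ∪ Ico hi (hi + ((b' : ℤ) + 1)) = Z0 b b' lo hi X := rfl
  rw [e0, h1, show hi + ((b' : ℤ) + 1) - 1 = hi + b' by ring]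
  apply sum_bij' (fun Z _ => mid lo hi Z) (fun S _ => ext b b' lo hi S)
  · intro Z hZ
    rw [mem_filter, mem_powerset] at hZ ⊢
    refine ⟨mid_sub _ _ _, ?_⟩
    have e := il_ext hl hX hZ.1 hZ.2
    rw [← il_iff (b := b) (b' := b') hl hX (mid_sub _ _ _), e]
    exact hZ.2
  · intro S hS
    rw [mem_filter, mem_powerset] at hS ⊢
    refine ⟨?_, (il_iff hl hX hS.1).2 hS.2⟩
    intro z hz
    rw [mem_ext] at hz
    rw [mem_Ico]
    rcases hz with q | q | q
    · omega
    · have := mem_Ico.1 (hS.1 q)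
      omega
    · omega
  · intro Z hZ
    rw [mem_filter, mem_powerset] at hZ
    exact il_ext hl hX hZ.1 hZ.2
  · intro S hS
    rw [mem_filter, mem_powerset] at hS
    exact mid_ext hS.1
  · intro Z hZ
    rw [mem_filter, mem_powerset] at hZ
    have e := il_ext hl hX hZ.1 hZ.2
    conv_lhs => rw [← e]
    unfold ext
    rw [tt_sh]

theorem c3 (h1 : StmC1) (h2 : StmC2) : StmC3 := by
  classical
  intro K
  induction K with
  | zero =>
    intro g α β
    rw [powersetCard_zero, sum_singleton, tt_empty, one_mul, union_empty]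
    simp
  | succ K ih =>
    intro g α β
    have e1 : ∀ S' ∈ (Ico (0 : ℤ) (g + (K + 1 : ℕ))).powersetCard (K + 1),
        tt S' * tt (Ico (-(α : ℤ)) 0 ∪ S' ∪ Ico ((g : ℤ) + (K + 1 : ℕ)) (g + (K + 1 : ℕ) + β)) =
        ∑ S ∈ (Ico (0 : ℤ) (g + K)).powersetCard K, if IL S S' then
          tt S * tt (Ico (-(α : ℤ)) 0 ∪ S' ∪ Ico ((g : ℤ) + (K + 1 : ℕ)) (g + (K + 1 : ℕ) + β))
          else 0 := by
      intro S' hS'
      rw [mem_powersetCard] at hS'
      rw [h1 0 (g + (K + 1 : ℕ)) S' hS'.1 (card_pos.1 (by omega)), sum_mul]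
      rw [← sum_filter]
      rw [show (g : ℤ) + (K + 1 : ℕ) - 1 = g + K by push_cast; ring]
      apply sum_congr _ (fun _ _ => rfl)
      ext S
      simp only [mem_filter, mem_powerset, mem_powersetCard]
      constructor
      · rintro ⟨q1, q2⟩
        have := q2.1
        exact ⟨⟨q1, by omega⟩, q2⟩
      · rintro ⟨q1, q2⟩
        exact ⟨q1.1, q2⟩
    rw [sum_congr rfl e1, sum_comm]
    have e2 : ∀ S ∈ (Ico (0 : ℤ) (g + K)).powersetCard K,
        (∑ S' ∈ (Ico (0 : ℤ) (g + (K + 1 : ℕ))).powersetCard (K + 1), if IL S S' then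
          tt S * tt (Ico (-(α : ℤ)) 0 ∪ S' ∪ Ico ((g : ℤ) + (K + 1 : ℕ)) (g + (K + 1 : ℕ) + β))
          else 0) =
        tt S * tt (Ico (-((α + 1 : ℕ) : ℤ)) 0 ∪ S ∪ Ico ((g : ℤ) + K) (g + K + (β + 1 : ℕ))) := by
      intro S hS
      rw [mem_powersetCard] at hS
      have q := h2 α β 0 (g + K) S hS.1 (by positivity)
      have c1 : Ico (-((α + 1 : ℕ) : ℤ)) 0 ∪ S ∪ Ico ((g : ℤ) + K) (g + K + (β + 1 : ℕ)) =
          Ico (0 - ((α : ℤ) + 1)) 0 ∪ S ∪ Ico ((g : ℤ) + K) (g + K + ((β : ℤ) + 1)) := by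
        push_cast
        rw [show -((α : ℤ) + 1) = 0 - ((α : ℤ) + 1) by ring]
      rw [c1, q, mul_sum, ← sum_filter]
      have c2 : (powersetCard (K + 1) (Ico (0 : ℤ) (g + (K + 1 : ℕ)))).filter (fun S' => IL S S') =
          ((Ico (0 : ℤ) (g + K + 1)).powerset).filter (fun S' => IL S S') := by
        ext S'
        simp only [mem_filter, mem_powerset, mem_powersetCard]
        rw [show (g : ℤ) + (K + 1 : ℕ) = g + K + 1 by push_cast; ring]
        constructor
        · rintro ⟨q1, q2⟩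
          exact ⟨q1.1, q2⟩
        · rintro ⟨q1, q2⟩
          have := q2.1
          exact ⟨⟨q1, by omega⟩, q2⟩
      rw [c2]
      apply sum_congr rfl
      intro S' _
      rw [show (0 : ℤ) - (α : ℤ) = -(α : ℤ) by ring,
        show (g : ℤ) + (K + 1 : ℕ) = g + K + 1 by push_cast; ring]
    rw [sum_congr rfl e2, ih g (α + 1) (β + 1)]
    congr 2
    · congr 1
      push_cast
      ring
    · congr 1
      push_cast
      ring

end Pool.Agent.K3h56.Loz
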